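import Pool.Agent.Helper20.QD.St3

/-!
# Project QD, part B, module LCJ: conjugation
-/

set_option autoImplicit false

open Filter Topology Matrix Set Metric
open scoped ComplexConjugate ComplexOrder

namespace Pool.Agent.Helper6.QD

open Pool.Agent.Helper35.PM Pool.Agent.Helper20.QD

/-- states -/
def LCJ_S : Set Mat := {P | P.PosSemidef ∧ P.trace = 1}

theorem LCJ_hs (A : Mat) : (A * Aᴴ).trace = ((hs A : ℝ) : ℂ) := by
  simp only [Matrix.trace, Matrix.diag, Matrix.mul_apply, Matrix.conjTranspose_apply, hs,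
    Fin.sum_univ_two, RCLike.star_def, Complex.mul_conj, Complex.normSq_eq_norm_sq]
  push_cast
  ring

theorem LCJ_inv_mul (A : SL) : ((A⁻¹ : SL) : Mat) * (A : Mat) = 1 := by
  rw [← Matrix.SpecialLinearGroup.coe_mul, inv_mul_cancel, Matrix.SpecialLinearGroup.coe_one]

theorem LCJ_conj_inv (A : SL) (P : Mat) :
    ((A⁻¹ : SL) : Mat) * ((A : Mat) * P * (A : Mat)ᴴ) * ((A⁻¹ : SL) : Mat)ᴴ = P := by
  have h1 := LCJ_inv_mul A
  have h2 : (A : Mat)ᴴ * ((A⁻¹ : SL) : Mat)ᴴ = 1 := by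
    rw [← Matrix.conjTranspose_mul, h1, Matrix.conjTranspose_one]
  calc ((A⁻¹ : SL) : Mat) * ((A : Mat) * P * (A : Mat)ᴴ) * ((A⁻¹ : SL) : Mat)ᴴ
      = (((A⁻¹ : SL) : Mat) * (A : Mat)) * P * ((A : Mat)ᴴ * ((A⁻¹ : SL) : Mat)ᴴ) := by
        simp only [Matrix.mul_assoc]
    _ = P := by rw [h1, h2, Matrix.one_mul, Matrix.mul_one]

theorem LCJ_tr (A : SL) {P : Mat} (hP : P ∈ LCJ_S) :
    ∃ t : ℝ, 0 < t ∧ ((A : Mat) * P * (A : Mat)ᴴ).trace = (t : ℂ) := by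
  have hM := hP.1.mul_mul_conjTranspose_same (A : Mat)
  have h0 : ((A : Mat) * P * (A : Mat)ᴴ).trace ≠ 0 := by
    intro h
    rw [hM.trace_eq_zero_iff] at h
    have h1 := LCJ_conj_inv A P
    rw [h, Matrix.mul_zero, Matrix.zero_mul] at h1
    have h2 := hP.2
    rw [← h1, Matrix.trace_zero] at h2
    exact zero_ne_one h2
  have h1 := hM.trace_nonneg
  rw [Complex.le_def] at h1
  have h2 : ((A : Mat) * P * (A : Mat)ᴴ).trace =
      ((((A : Mat) * P * (A : Mat)ᴴ).trace.re : ℝ) : ℂ) := by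
    apply Complex.ext
    · simp
    · rw [Complex.ofReal_im, ← h1.2, Complex.zero_im]
  refine ⟨_, lt_of_le_of_ne h1.1 ?_, h2⟩
  intro h
  apply h0
  rw [h2, ← h]
  simp

theorem LCJ_act (A : SL) {P : Mat} (hP : P ∈ LCJ_S) : act A P ∈ LCJ_S := by
  obtain ⟨t, ht, h⟩ := LCJ_tr A hP
  have hM := hP.1.mul_mul_conjTranspose_same (A : Mat)
  unfold act density
  rw [h]
  refine ⟨hM.smul ?_, ?_⟩
  · rw [← Complex.ofReal_inv]
    exact_mod_cast (inv_pos.2 ht).le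
  · rw [Matrix.trace_smul, h, smul_eq_mul, inv_mul_cancel₀]
    exact_mod_cast ht.ne'

theorem LCJ_one {P : Mat} (hP : P.trace = 1) : act 1 P = P := by
  unfold act density
  rw [Matrix.SpecialLinearGroup.coe_one, Matrix.one_mul, Matrix.conjTranspose_one, Matrix.mul_one,
    hP, inv_one, one_smul]

theorem LCJ_cont (A : SL) : ContinuousOn (act A) LCJ_S := by
  have h1 : Continuous fun P : Mat => (A : Mat) * P * (A : Mat)ᴴ := by fun_prop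
  have h2 : Continuous fun P : Mat => ((A : Mat) * P * (A : Mat)ᴴ).trace := h1.matrix_trace
  unfold act density
  refine ContinuousOn.smul (h2.continuousOn.inv₀ ?_) h1.continuousOn
  intro P hP
  obtain ⟨t, ht, h⟩ := LCJ_tr A hP
  rw [h]
  exact_mod_cast ht.ne'

theorem LCJ_density (A : SL) (M : Mat) (h : M.trace ≠ 0) :
    act A (density M) = density ((A : Mat) * M * (A : Mat)ᴴ) := by
  unfold act density
  rw [Matrix.mul_smul, Matrix.smul_mul, Matrix.trace_smul, smul_smul, smul_eq_mul, mul_inv, inv_inv,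
    mul_comm M.trace, mul_assoc, mul_inv_cancel₀ h, mul_one]

theorem LCJ_sph : sph ⊆ LCJ_S := fun _ hQ => ⟨hQ.1, hQ.2.1⟩

theorem LCJ_cj {Γ : Type} [Group Γ] (B : SL) (ρ : Γ →* SL) (γ : Γ) :
    cj B ρ γ = B * ρ γ * B⁻¹ := rfl

theorem LCJ_cj_inv {Γ : Type} [Group Γ] (B : SL) (ρ : Γ →* SL) : cj B⁻¹ (cj B ρ) = ρ := by
  ext1 γ
  rw [LCJ_cj, LCJ_cj]
  group

section

variable (hLQC : StLQC)
include hLQC

theorem LCJ_mul (A B : SL) {P : Mat} (hP : P ∈ LCJ_S) : act (A * B) P = act A (act B P) :=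
  hLQC.2.2.2.2.2.2.2.2.2.2 A B P hP.1 hP.2

theorem LCJ_inv_act (A : SL) {P : Mat} (hP : P ∈ LCJ_S) : act A⁻¹ (act A P) = P := by
  rw [← LCJ_mul hLQC _ _ hP, inv_mul_cancel, LCJ_one hP.2]

theorem LCJ_act_inv (A : SL) {P : Mat} (hP : P ∈ LCJ_S) : act A (act A⁻¹ P) = P := by
  rw [← LCJ_mul hLQC _ _ hP, mul_inv_cancel, LCJ_one hP.2]

theorem LCJ_act_cj {Γ : Type} [Group Γ] (B : SL) (ρ : Γ →* SL) (γ : Γ) {P : Mat} (hP : P ∈ LCJ_S) :
    act (cj B ρ γ) (act B P) = act B (act (ρ γ) P) := by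
  rw [← LCJ_mul hLQC _ _ hP, ← LCJ_mul hLQC _ _ hP, LCJ_cj, inv_mul_cancel_right]

end

theorem LCJ_convex (B : SL) {C : Set Mat} (hC : Convex ℝ C) (hCS : C ⊆ LCJ_S) :
    Convex ℝ (act B '' C) := by
  rintro _ ⟨P, hP, rfl⟩ _ ⟨Q, hQ, rfl⟩ a b ha hb hab
  obtain ⟨p, hp, hpt⟩ := LCJ_tr B (hCS hP)
  obtain ⟨q, hq, hqt⟩ := LCJ_tr B (hCS hQ)
  obtain ⟨s, hs⟩ : ∃ s, s = a / p + b / q := ⟨_, rfl⟩
  have hs0 : 0 < s := by
    rw [hs]
    rcases ha.eq_or_lt with h | h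
    · have : b = 1 := by linarith
      rw [← h, this]
      positivity
    · positivity
  have hR : (a / p / s) • P + (b / q / s) • Q ∈ C := by
    refine hC hP hQ (by positivity) (by positivity) ?_
    rw [← add_div, ← hs, div_self hs0.ne']
  refine ⟨_, hR, ?_⟩
  have h1 : (B : Mat) * ((a / p / s) • P + (b / q / s) • Q) * (B : Mat)ᴴ =
      (a / p / s) • ((B : Mat) * P * (B : Mat)ᴴ) + (b / q / s) • ((B : Mat) * Q * (B : Mat)ᴴ) := by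
    rw [Matrix.mul_add, Matrix.add_mul, Matrix.mul_smul, Matrix.mul_smul, Matrix.smul_mul,
      Matrix.smul_mul]
  have h2 : ((B : Mat) * ((a / p / s) • P + (b / q / s) • Q) * (B : Mat)ᴴ).trace = ((1 / s : ℝ) : ℂ) := by
    rw [h1, Matrix.trace_add, Matrix.trace_smul, Matrix.trace_smul, hpt, hqt, Complex.real_smul,
      Complex.real_smul, ← Complex.ofReal_mul, ← Complex.ofReal_mul, ← Complex.ofReal_add]
    congr 1
    have e1 : a / p / s * p + b / q / s * q = (a + b) / s := by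
      field_simp
    rw [e1, hab]
  unfold act density
  rw [h2, h1, hpt, hqt]
  ext i j
  simp only [Matrix.smul_apply, Matrix.add_apply, smul_eq_mul, Complex.real_smul]
  have hpC : (p : ℂ) ≠ 0 := by exact_mod_cast hp.ne'
  have hqC : (q : ℂ) ≠ 0 := by exact_mod_cast hq.ne'
  have hsC : (s : ℂ) ≠ 0 := by exact_mod_cast hs0.ne'
  push_cast
  field_simp

section

variable (hLQC : StLQC) (hLMX : StLMX)
include hLQC hLMX

theorem LCJ_discrete {Γ : Type} [Group Γ] (ρ : Γ →* SL) (B : SL) (h : IsDiscrete ρ) :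
    IsDiscrete (cj B ρ) := by
  intro X
  refine (h (hs ((B⁻¹ : SL) : Mat) * X * hs (B : Mat))).subset ?_
  intro γ hγ
  have hγ' : hs ((cj B ρ γ : SL) : Mat) ≤ X := hγ
  have h1 : ρ γ = B⁻¹ * cj B ρ γ * B := by
    rw [LCJ_cj]
    group
  have h2 : hs ((ρ γ : SL) : Mat) ≤ hs ((B⁻¹ * cj B ρ γ : SL) : Mat) * hs (B : Mat) := by
    conv_lhs => rw [h1]
    exact hLMX.2.1 _ _
  have h3 := hLMX.2.1 B⁻¹ (cj B ρ γ)
  have h4 := hLMX.1 B
  have h5 := hLMX.1 B⁻¹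
  change hs ((ρ γ : SL) : Mat) ≤ _
  refine h2.trans (mul_le_mul_of_nonneg_right (h3.trans ?_) (by linarith))
  exact mul_le_mul_of_nonneg_left hγ' (by linarith)

theorem LCJ_CC {Γ : Type} [Group Γ] (ρ : Γ →* SL) (B : SL) (h : CC ρ) : CC (cj B ρ) := by
  refine ⟨LCJ_discrete hLQC hLMX ρ B h.discrete, ?_⟩
  obtain ⟨C, K, h1, h2, h3, h4, h5, h6, h7⟩ := h.cocompact
  have hCS : C ⊆ LCJ_S := fun P hP => ⟨(h3 P hP).1.posSemidef, (h3 P hP).2⟩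
  have hKS : K ⊆ LCJ_S := fun P hP => ⟨(h6 P hP).1.posSemidef, (h6 P hP).2⟩
  refine ⟨act B '' C, act B '' K, h1.image _, LCJ_convex B h2 hCS, ?_, ?_, ?_, ?_, ?_⟩
  · rintro _ ⟨P, hP, rfl⟩
    exact hLQC.2.2.2.2.2.2.2.2.2.1 B P (h3 P hP).1 (h3 P hP).2
  · rintro γ _ ⟨P, hP, rfl⟩
    change act (cj B ρ γ) (act B P) ∈ _
    rw [LCJ_act_cj hLQC B ρ γ (hCS hP)]
    exact ⟨_, h4 γ P hP, rfl⟩
  · exact h5.image_of_continuousOn ((LCJ_cont B).mono hKS)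
  · rintro _ ⟨P, hP, rfl⟩
    exact hLQC.2.2.2.2.2.2.2.2.2.1 B P (h6 P hP).1 (h6 P hP).2
  · rintro _ ⟨P, hP, rfl⟩
    obtain ⟨γ, hγ⟩ := h7 P hP
    refine ⟨γ, ?_⟩
    change act (cj B ρ γ) (act B P) ∈ _
    rw [LCJ_act_cj hLQC B ρ γ (hCS hP)]
    exact ⟨_, hγ, rfl⟩

theorem LCJ_orb {Γ : Type} [Group Γ] (ρ : Γ →* SL) (B : SL) (γ : Γ) :
    fr (act B (orb ρ γ)) (orb (cj B ρ) γ) ≤ hs ((B⁻¹ : SL) : Mat) ^ 2 / hs ((ρ γ : SL) : Mat) := by
  have hB := hLMX.1 B⁻¹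
  have hργ := hLMX.1 (ρ γ)
  obtain ⟨A, hA⟩ : ∃ A, A = B * ρ γ := ⟨_, rfl⟩
  have hAp := hLMX.1 A
  have hABp := hLMX.1 (A * B⁻¹)
  have hne : ∀ M : SL, ((M : Mat) * (M : Mat)ᴴ).trace ≠ 0 := by
    intro M
    rw [LCJ_hs]
    have := hLMX.1 M
    exact_mod_cast (by linarith : hs (M : Mat) ≠ 0)
  have e1 : act B (orb ρ γ) = density ((A : Mat) * (A : Mat)ᴴ) := by
    unfold orb
    rw [LCJ_density B _ (hne _), hA, Matrix.SpecialLinearGroup.coe_mul, Matrix.conjTranspose_mul]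
    simp only [Matrix.mul_assoc]
  have e2 : orb (cj B ρ) γ =
      act A (density (((B⁻¹ : SL) : Mat) * ((B⁻¹ : SL) : Mat)ᴴ)) := by
    unfold orb
    rw [LCJ_density A _ (hne _), LCJ_cj, ← hA, Matrix.SpecialLinearGroup.coe_mul,
      Matrix.conjTranspose_mul]
    simp only [Matrix.mul_assoc]
  obtain ⟨p1, p2, -⟩ := hLMX.2.2.2.1 B⁻¹
  obtain ⟨q1, q2⟩ := hLMX.2.2.2.2.2 A _ p1 p2
  rw [e1, e2]
  refine q2.trans ?_
  have e3 : ((A : Mat) * density (((B⁻¹ : SL) : Mat) * ((B⁻¹ : SL) : Mat)ᴴ) * (A : Mat)ᴴ).trace.re =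
      hs ((A * B⁻¹ : SL) : Mat) / hs ((B⁻¹ : SL) : Mat) := by
    unfold density
    rw [Matrix.mul_smul, Matrix.smul_mul, Matrix.trace_smul, LCJ_hs]
    have e4 : (A : Mat) * (((B⁻¹ : SL) : Mat) * ((B⁻¹ : SL) : Mat)ᴴ) * (A : Mat)ᴴ =
        ((A * B⁻¹ : SL) : Mat) * ((A * B⁻¹ : SL) : Mat)ᴴ := by
      rw [Matrix.SpecialLinearGroup.coe_mul, Matrix.conjTranspose_mul]
      simp only [Matrix.mul_assoc]
    rw [e4, LCJ_hs, smul_eq_mul, ← Complex.ofReal_inv, ← Complex.ofReal_mul, Complex.ofReal_re]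
    ring
  rw [e3]
  have h1 : hs ((ρ γ : SL) : Mat) ≤ hs ((B⁻¹ : SL) : Mat) * hs (A : Mat) := by
    have h2 : ρ γ = B⁻¹ * A := by
      rw [hA]
      group
    conv_lhs => rw [h2]
    exact hLMX.2.1 _ _
  rw [div_le_div_iff₀ (by positivity) (by linarith)]
  generalize hs ((B⁻¹ : SL) : Mat) = b at *
  generalize hs ((A * B⁻¹ : SL) : Mat) = c at *
  generalize hs (A : Mat) = x at *
  generalize hs ((ρ γ : SL) : Mat) = y at *
  have hb0 : 0 < b := by linarith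
  have h3 : b ^ 2 * (x * (c / b)) = b * x * c := by
    field_simp
  rw [h3]
  nlinarith [mul_nonneg (by linarith : (0 : ℝ) ≤ b * x) (by linarith : (0 : ℝ) ≤ c - 2)]

end

theorem LCJ_tendsto (hLFR : StLFR) (hLQC : StLQC) (hLMX : StLMX) {Γ : Type} [Group Γ]
    (ρ : Γ →* SL) (B : SL) (h : IsDiscrete ρ) (i j : Fin 2) :
    Tendsto (fun γ => orb (cj B ρ) γ i j - act B (orb ρ γ) i j) cofinite (𝓝 0) := by
  rw [Metric.tendsto_nhds]
  intro ε hε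
  have h1 := h (hs ((B⁻¹ : SL) : Mat) ^ 2 / ε ^ 2)
  rw [Filter.eventually_cofinite]
  refine h1.subset ?_
  intro γ hγ
  change hs ((ρ γ : SL) : Mat) ≤ _
  by_contra hlt
  rw [not_le] at hlt
  apply hγ
  rw [dist_zero_right]
  have hργ := hLMX.1 (ρ γ)
  have h2 : fr (act B (orb ρ γ)) (orb (cj B ρ) γ) < ε ^ 2 := by
    refine lt_of_le_of_lt (LCJ_orb hLQC hLMX ρ B γ) ?_
    rw [div_lt_iff₀ (by linarith)]
    rw [div_lt_iff₀ (by positivity)] at hlt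
    linarith
  have h3 := hLFR.2.2.1 (act B (orb ρ γ)) (orb (cj B ρ) γ) i j
  have h4 : ‖orb (cj B ρ) γ i j - act B (orb ρ γ) i j‖ ^ 2 < ε ^ 2 := by
    rw [norm_sub_rev]
    exact lt_of_le_of_lt h3 h2
  exact lt_of_pow_lt_pow_left₀ 2 hε.le h4

theorem LCJ_lim_sub (hLFR : StLFR) (hLQC : StLQC) (hLMX : StLMX) (hLLS : StLLS) {Γ : Type}
    [Group Γ] (ρ : Γ →* SL) (B : SL) (h : IsDiscrete ρ) {Q : Mat} (hQ : Q ∈ limitSet ρ) :
    act B Q ∈ limitSet (cj B ρ) := by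
  have hQS : Q ∈ LCJ_S := LCJ_sph ((hLLS Γ ρ h).2.1 hQ)
  have hoS : ∀ γ, orb ρ γ ∈ LCJ_S := by
    intro γ
    obtain ⟨p1, p2, -⟩ := hLMX.2.2.2.1 (ρ γ)
    exact ⟨p1.posSemidef, p2⟩
  have hQ' : MapClusterPt Q cofinite (orb ρ) := hQ
  change MapClusterPt (act B Q) cofinite (orb (cj B ρ))
  rw [mapClusterPt_iff_ultrafilter] at hQ' ⊢
  obtain ⟨U, hU, hUQ⟩ := hQ'
  refine ⟨U, hU, ?_⟩
  have h1 : Tendsto (fun γ => act B (orb ρ γ)) U (𝓝 (act B Q)) := by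
    have h2 : Tendsto (act B) (𝓝[LCJ_S] Q) (𝓝 (act B Q)) := LCJ_cont B Q hQS
    refine h2.comp (tendsto_nhdsWithin_iff.2 ⟨hUQ, Eventually.of_forall hoS⟩)
  refine tendsto_pi_nhds.2 fun i => ?_
  refine tendsto_pi_nhds.2 fun j => ?_
  have h2 : Tendsto (fun γ => act B (orb ρ γ) i j) U (𝓝 (act B Q i j)) :=
    tendsto_pi_nhds.1 (tendsto_pi_nhds.1 h1 i) j
  have h3 := (LCJ_tendsto hLFR hLQC hLMX ρ B h i j).mono_left hU
  have h4 := h2.add h3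
  rw [add_zero] at h4
  refine h4.congr fun γ => ?_
  ring

theorem LCJ_lim (hLFR : StLFR) (hLQC : StLQC) (hLMX : StLMX) (hLLS : StLLS) {Γ : Type}
    [Group Γ] (ρ : Γ →* SL) (B : SL) (h : IsDiscrete ρ) :
    limitSet (cj B ρ) = act B '' limitSet ρ := by
  have h' := LCJ_discrete hLQC hLMX ρ B h
  ext Q
  constructor
  · intro hQ
    have h1 := LCJ_lim_sub hLFR hLQC hLMX hLLS (cj B ρ) B⁻¹ h' hQ
    rw [LCJ_cj_inv] at h1
    exact ⟨_, h1, LCJ_act_inv hLQC B (LCJ_sph ((hLLS Γ _ h').2.1 hQ))⟩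
  · rintro ⟨R, hR, rfl⟩
    exact LCJ_lim_sub hLFR hLQC hLMX hLLS ρ B h hR

theorem hLCJ (hLFR : StLFR) (hLQC : StLQC) (hLMX : StLMX) (hLLS : StLLS) : StLCJ := by
  refine ⟨?_, ?_⟩
  · intro Γ _ ρ B hρ
    have hcc := LCJ_CC hLQC hLMX ρ B hρ
    have hlim := LCJ_lim hLFR hLQC hLMX hLLS ρ B hρ.discrete
    have hS : limitSet ρ ⊆ LCJ_S := fun Q hQ => LCJ_sph ((hLLS Γ ρ hρ.discrete).2.1 hQ)
    have hS' : limitSet (cj B ρ) ⊆ LCJ_S := fun Q hQ =>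
      LCJ_sph ((hLLS Γ _ hcc.discrete).2.1 hQ)
    have hto : ∀ Q ∈ limitSet ρ, act B Q ∈ limitSet (cj B ρ) := fun Q hQ => by
      rw [hlim]
      exact ⟨Q, hQ, rfl⟩
    have hfrom : ∀ Q ∈ limitSet (cj B ρ), act B⁻¹ Q ∈ limitSet ρ := fun Q hQ => by
      rw [hlim] at hQ
      obtain ⟨R, hR, rfl⟩ := hQ
      rw [LCJ_inv_act hLQC B (hS hR)]
      exact hR
    refine ⟨hcc, hlim, ?_, ?_⟩
    · rintro ⟨e⟩
      let f : limitSet (cj B ρ) ≃ₜ limitSet ρ :=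
        { toFun := fun Q => ⟨act B⁻¹ Q.1, hfrom Q.1 Q.2⟩
          invFun := fun Q => ⟨act B Q.1, hto Q.1 Q.2⟩
          left_inv := fun Q => Subtype.ext (LCJ_act_inv hLQC B (hS' Q.2))
          right_inv := fun Q => Subtype.ext (LCJ_inv_act hLQC B (hS Q.2))
          continuous_toFun :=
            (continuousOn_iff_continuous_restrict.1 ((LCJ_cont B⁻¹).mono hS')).subtype_mk _
          continuous_invFun :=
            (continuousOn_iff_continuous_restrict.1 ((LCJ_cont B).mono hS)).subtype_mk _ }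
      exact ⟨f.trans e⟩
    · intro hside γ Q' hQ'
      have hQ'S : Q' ∈ LCJ_S := LCJ_sph hQ'.1
      have hact : ∀ (A : SL), ∀ Q ∈ sph, act A Q ∈ sph := hLQC.2.2.2.2.2.2.2.2.1
      have hQ : act B⁻¹ Q' ∈ sph \ limitSet ρ := by
        refine ⟨hact _ _ hQ'.1, fun h => hQ'.2 ?_⟩
        have h1 := hto _ h
        rwa [LCJ_act_inv hLQC B hQ'S] at h1
      obtain ⟨T, hT1, hT2, hT3, hT4⟩ := hside γ _ hQ
      have hTS : T ⊆ LCJ_S := fun P hP => LCJ_sph (hT2 hP).1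
      refine ⟨act B '' T, hT1.image _ ((LCJ_cont B).mono hTS), ?_, ?_, ?_⟩
      · rintro _ ⟨P, hP, rfl⟩
        refine ⟨hact _ _ (hT2 hP).1, fun h => (hT2 hP).2 ?_⟩
        have h1 := hfrom _ h
        rwa [LCJ_inv_act hLQC B (hTS hP)] at h1
      · exact ⟨_, hT3, LCJ_act_inv hLQC B hQ'S⟩
      · refine ⟨_, hT4, ?_⟩
        rw [← LCJ_act_cj hLQC B ρ γ (LCJ_sph hQ.1), LCJ_act_inv hLQC B hQ'S]
  · intro Q hQ
    rcases hLQC.1 Q hQ with rfl | ⟨z, rfl⟩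
    · exact ⟨1, LCJ_one hQ.2.1⟩
    · refine ⟨⟨!![0, -1; 1, -z], by simp [Matrix.det_fin_two]⟩, ?_⟩
      refine (hLQC.2.2.2.2.2.2.2.1 _ z).2 ?_
      simp [den]

end Pool.Agent.Helper6.QD
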