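import Pool.Agent.Helper20.QD.St2

/-!
# Project QD, part B, module RMT: the Riemann mapping theorem for bounded domains
-/

set_option autoImplicit false

open Filter Topology Matrix Set Metric
open scoped ComplexConjugate

namespace Pool.Agent.Helper6.QD

open Pool.Agent.Helper35.PM Pool.Agent.Helper20.QD

/-- the competing functions -/
structure RMTFam (U : Set ℂ) (p : ℂ) (h : ℂ → ℂ) : Prop where
  diff : DifferentiableOn ℂ h U
  inj : InjOn h U
  maps : MapsTo h U D
  zero : h p = 0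

theorem RMT_bound {U : Set ℂ} {p : ℂ} {h : ℂ → ℂ} (hh : RMTFam U p h) {r : ℝ} (hr : 0 < r)
    (hrU : closedBall p r ⊆ U) : ‖deriv h p‖ ≤ 1 / r := by
  refine Complex.norm_deriv_le_of_forall_mem_sphere_norm_le hr (hh.diff.diffContOnCl_ball hrU) ?_
  intro z hz
  have h1 := hh.maps (hrU (sphere_subset_closedBall hz))
  exact le_of_lt (by simpa using h1)

theorem RMT_start {U : Set ℂ} {p : ℂ} (hb : Bornology.IsBounded U) :
    ∃ h, RMTFam U p h ∧ 0 < ‖deriv h p‖ := by
  obtain ⟨R, hR, hUR⟩ := hb.subset_ball_lt 0 p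
  have hR' : (R : ℂ) ≠ 0 := by exact_mod_cast hR.ne'
  refine ⟨fun z => (z - p) / R, ⟨?_, ?_, ?_, ?_⟩, ?_⟩
  · exact ((differentiableOn_id.sub_const p).div_const _)
  · intro z _ w _ hzw
    have h1 : (z - p) / (R : ℂ) = (w - p) / R := hzw
    rw [div_left_inj' hR'] at h1
    linear_combination h1
  · intro z hz
    have h1 := hUR hz
    rw [mem_ball, dist_eq_norm] at h1
    rw [mem_ball_zero_iff, norm_div, Complex.norm_real, Real.norm_eq_abs, abs_of_pos hR,
      div_lt_one hR]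
    exact h1
  · simp
  · have h1 : HasDerivAt (fun z : ℂ => (z - p) / R) (1 / R) p :=
      ((hasDerivAt_id p).sub_const p).div_const _
    rw [h1.deriv, norm_pos_iff]
    exact one_div_ne_zero hR'

theorem hRMT (hRMO : StRMO) (hRHU : StRHU) (hRIJ : StRIJ) (hRKO : StRKO) : StRMT := by
  intro U p hU hb hpc hp hlog
  obtain ⟨r, hr, hrU⟩ := Metric.isOpen_iff.1 hU p hp
  have hr2 : 0 < r / 2 := by linarith
  have hrU' : closedBall p (r / 2) ⊆ U :=
    (closedBall_subset_ball (by linarith)).trans hrU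
  obtain ⟨h0, hh0, hpos⟩ := RMT_start (p := p) hb
  let S : Set ℝ := {x | ∃ h, RMTFam U p h ∧ x = ‖deriv h p‖}
  have hS1 : S.Nonempty := ⟨_, h0, hh0, rfl⟩
  have hS2 : BddAbove S := ⟨1 / (r / 2), by
    rintro x ⟨h, hh, rfl⟩
    exact RMT_bound hh hr2 hrU'⟩
  obtain ⟨u, -, hu, huS⟩ := exists_seq_tendsto_sSup hS1 hS2
  choose F hF hFu using huS
  have hM : 0 < sSup S := lt_of_lt_of_le hpos (le_csSup hS2 ⟨h0, hh0, rfl⟩)
  obtain ⟨φ, f, hφ, hfd, hlim⟩ := hRMO U F hU (fun n => (hF n).diff) (fun n z hz => by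
    have h1 := (hF n).maps hz
    exact le_of_lt (by simpa using h1))
  have hfp : f p = 0 := by
    have h1 := hlim.tendsto_at hp
    have h2 : (fun n => F (φ n) p) = fun _ => (0 : ℂ) := by
      funext n
      exact (hF _).zero
    rw [h2] at h1
    exact (tendsto_nhds_unique h1 tendsto_const_nhds)
  have hder : ‖deriv f p‖ = sSup S := by
    have h1 := (hlim.deriv (Eventually.of_forall fun n => (hF (φ n)).diff) hU).tendsto_at hp
    have h2 : Tendsto (fun n => ‖deriv (F (φ n)) p‖) atTop (𝓝 ‖deriv f p‖) := h1.norm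
    have h3 : (fun n => ‖deriv (F (φ n)) p‖) = fun n => u (φ n) := by
      funext n
      exact (hFu _).symm
    rw [h3] at h2
    exact tendsto_nhds_unique h2 (hu.comp hφ.tendsto_atTop)
  have hinj : InjOn f U := by
    rcases hRHU U (fun n => F (φ n)) f hU hpc (fun n => (hF _).diff) (fun n => (hF _).inj) hlim with h | h
    · exact h
    · exfalso
      obtain ⟨c, hc⟩ := h
      have h1 : f =ᶠ[𝓝 p] fun _ => c := by
        filter_upwards [hU.mem_nhds hp] with z hz
        exact hc z hz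
      rw [h1.deriv_eq, deriv_const, norm_zero] at hder
      exact hM.ne hder
  obtain ⟨hne, hopen, g, hgd, hg⟩ := hRIJ U f hU hfd hinj
  have hmaps : MapsTo f U D := by
    have h1 : f '' U ⊆ closedBall (0 : ℂ) 1 := by
      rintro _ ⟨z, hz, rfl⟩
      rw [mem_closedBall_zero_iff]
      refine le_of_tendsto (hlim.tendsto_at hz).norm (Eventually.of_forall fun n => ?_)
      have h2 := (hF (φ n)).maps hz
      exact le_of_lt (by simpa using h2)
    have h2 : f '' U ⊆ interior (closedBall (0 : ℂ) 1) := hopen.subset_interior_iff.2 h1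
    rw [interior_closedBall _ one_ne_zero] at h2
    intro z hz
    exact h2 ⟨z, hz, rfl⟩
  have himg : f '' U = D := by
    by_contra hne'
    obtain ⟨k, hk1, hk2, hk3, hk4, hk5⟩ := hRKO U p f hU hpc hp hlog hfd hinj hmaps hfp hne'
    have h1 : ‖deriv k p‖ ≤ sSup S := le_csSup hS2 ⟨k, ⟨hk1, hk2, hk3, hk4⟩, rfl⟩
    rw [hder] at hk5
    exact absurd h1 (not_le.2 hk5)
  rw [himg] at hgd
  refine ⟨g, hgd, ?_, ?_, ?_⟩
  · intro w1 h1 w2 h2 h12
    rw [← himg] at h1 h2
    obtain ⟨z1, hz1, rfl⟩ := h1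
    obtain ⟨z2, hz2, rfl⟩ := h2
    rw [hg z1 hz1, hg z2 hz2] at h12
    rw [h12]
  · ext z
    constructor
    · rintro ⟨w, hw, rfl⟩
      rw [← himg] at hw
      obtain ⟨z, hz, rfl⟩ := hw
      rw [hg z hz]
      exact hz
    · intro hz
      refine ⟨f z, ?_, hg z hz⟩
      rw [← himg]
      exact ⟨z, hz, rfl⟩
  · rw [← hfp]
    exact hg p hp

end Pool.Agent.Helper6.QD
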