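import Pool.Agent.Helper58.QD.StG

/-!
# Project QD: module Bal (facts on geodesic balls)
-/

set_option autoImplicit false

open MeasureTheory Set Filter Topology
open Helper62.LH Helper62.DSH Helper58.QD
open scoped ContDiff ENNReal

noncomputable section

namespace Pool.Agent.Helper6.QD

theorem hBal : StMet → StDlc → StHr → StDlv → SBal := by
  intro hMet hDlc hHr hDlv n g Γ hg hΓ hC x
  obtain ⟨-, -, -, hxx, -, -⟩ := hMet n g hg
  obtain ⟨-, -, hdc⟩ := hDlc n g hg
  obtain ⟨hvs, hvp, -⟩ := hDlv n g Γ hg hΓ
  have hvc : Continuous (vol g) := hvs.continuous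
  have hdx : Continuous (fun y => dg g x y) := hdc.comp (Continuous.prodMk_right x)
  have hop : ∀ r, IsOpen (Ba g x r) := fun r => isOpen_lt hdx continuous_const
  have hsub : ∀ r, Ba g x r ⊆ {y | dg g x y ≤ r} := by
    intro r y hy
    have hy' : dg g x y < r := hy
    exact hy'.le
  have hcp : ∀ r, IsCompact {y | dg g x y ≤ r} := fun r => hHr n g hg hC x r
  have hint : ∀ r, IntegrableOn (vol g) (Ba g x r) := fun r =>
    (hvc.continuousOn.integrableOn_compact (hcp r)).mono_set (hsub r)
  have hmg : ∀ r, mg g (Ba g x r) = ENNReal.ofReal (∫ y in Ba g x r, vol g y) := by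
    intro r
    unfold mg
    rw [withDensity_apply _ (hop r).measurableSet]
    rw [ofReal_integral_eq_lintegral_ofReal (hint r)
      (Eventually.of_forall fun y => (hvp y).le)]
  have hnt : ∀ r, mg g (Ba g x r) ≠ ⊤ := by
    intro r
    rw [hmg r]
    exact ENNReal.ofReal_ne_top
  have hnn : ∀ r, 0 ≤ ∫ y in Ba g x r, vol g y := fun r =>
    integral_nonneg fun y => (hvp y).le
  have hvb : ∀ r, ∫ y in Ba g x r, vol g y = vb g x r := by
    intro r
    unfold vb
    rw [hmg r, ENNReal.toReal_ofReal (hnn r)]
  refine ⟨hop, hnt, ?_, hvb, ?_⟩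
  · intro r hr
    rw [← hvb r]
    rw [setIntegral_pos_iff_support_of_nonneg_ae
      (Eventually.of_forall fun y => (hvp y).le) (hint r)]
    have hsupp : Function.support (vol g) = univ := by
      ext y
      simp [(hvp y).ne']
    rw [hsupp, univ_inter]
    refine (hop r).measure_pos volume ⟨x, ?_⟩
    show dg g x x < r
    rw [hxx x]
    exact hr
  · intro r s hrs
    unfold vb
    refine ENNReal.toReal_mono (hnt s) (measure_mono ?_)
    intro y hy
    have hy' : dg g x y < r := hy
    exact lt_of_lt_of_le hy' hrs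

end Pool.Agent.Helper6.QD
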